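import Mathlib
import Pool.Agent.TH127.SC.Good

/-!
# Linear relations between the translates of an odd function, and good classes

A finite group acts on a finite set with a fixed point free involution. If the classes are good, an
odd function has no linear relations between its translates unless it is degenerate with respect to
a sign function which is invariant up to signs.
-/

set_option linter.unusedSectionVars false
set_option linter.unusedVariables false

namespace Pool.Agent.V7H82.TT

open Pool.Agent.TH127.SC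

variable {G Y : Type*} [Group G] [MulAction G Y] {cb : Y → Y} [Fintype Y] [Finite G]

open Classical in
/-- The function `W` is not degenerate on the class of `y₀`. -/
def RegClass (G : Type*) {Y : Type*} [Group G] [MulAction G Y] [Fintype Y] (cb : Y → Y) (W : Y → ℤ)
    (y₀ : Y) : Prop :=
  (∃ (g : G) (z : Y), Link G cb y₀ z ∧ W (g • z) ≠ 0) ∧
    ∀ v : Y → ℤ, Semi G cb y₀ v →
      (∃ g : G, ∑ z ∈ Finset.univ.filter (fun z => Link G cb y₀ z), v z * W (g • z) ≠ 0) ∧
      (Nat.card (Cls G cb y₀) = 2 ∨ ∃ (g : G) (x y : Y), Link G cb y₀ x ∧ Link G cb y₀ y ∧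
        W (g • x) * v x ≠ W (g • y) * v y)

section

variable (hcb : ∀ y, cb (cb y) = y) (hne : ∀ y, cb y ≠ y)
  (hG : ∀ (g : G) (y : Y), g • cb y = cb (g • y))

open Classical in
include hcb hne hG in
/-- One pair. -/
theorem zero_of_one {y₀ : Y} (hcard : Nat.card (Cls G cb y₀) = 2 * 1) {W : Y → ℤ}
    (hW : ∀ y, W (cb y) = -W y) {c : Y → ℤ} (hc : ∀ y, c (cb y) = -c y)
    (hcl : ∀ g' : G, ∑ z ∈ Finset.univ.filter (fun z => Link G cb y₀ z),
      c z * W (g' • z) = 0)
    (hreg : ∃ (g : G) (z : Y), Link G cb y₀ z ∧ W (g • z) ≠ 0) : c y₀ = 0 := by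
  have hB : Finset.univ.filter (fun z => Link G cb y₀ z) = {y₀, cb y₀} := by
    symm
    apply Finset.eq_of_subset_of_card_le
    · intro z hz
      rw [Finset.mem_insert, Finset.mem_singleton] at hz
      refine Finset.mem_filter.2 ⟨Finset.mem_univ _, ?_⟩
      rcases hz with rfl | rfl
      · exact link_refl _
      · exact link_cb hcb hne hG _
    · rw [Finset.card_pair (Ne.symm (hne y₀)), ← Fintype.card_subtype,
        ← Nat.card_eq_fintype_card, hcard]
  obtain ⟨g', z, hz, hg'⟩ := hreg
  have hz' : z ∈ Finset.univ.filter (fun z => Link G cb y₀ z) :=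
    Finset.mem_filter.2 ⟨Finset.mem_univ _, hz⟩
  have hg : W (g' • y₀) ≠ 0 := by
    rw [hB, Finset.mem_insert, Finset.mem_singleton] at hz'
    rcases hz' with rfl | rfl
    · exact hg'
    · intro h
      apply hg'
      rw [hG, hW, h, neg_zero]
  have h1 := hcl g'
  rw [hB, Finset.sum_pair (Ne.symm (hne y₀)), hG, hc, hW] at h1
  have h2 : c y₀ * W (g' • y₀) = 0 := by linarith
  exact (mul_eq_zero.1 h2).resolve_right hg

/-- The sign function of a cycle. -/
noncomputable def cycSign (h : G) (y : Y) (z : Y) : ℤ :=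
  open Classical in if ∃ k : ℕ, z = h ^ k • y then 1 else -1

open Classical in
include hcb hne hG in
/-- A function which is constant on the translates of a cycle defines a sign function. -/
theorem semi_of_cycle {y₀ y : Y} {h : G} (hy : Link G cb y₀ y)
    (hdis : ∀ k l : ℕ, cb (h ^ k • y) ≠ h ^ l • y)
    (hall : ∀ z, Link G cb y z ↔ ∃ k : ℕ, z = h ^ k • y ∨ z = cb (h ^ k • y))
    {c : Y → ℤ} (hc : ∀ y, c (cb y) = -c y)
    (hconst : ∀ g : G, c (g • h • y) = c (g • y)) (hcy : c y ≠ 0) :
    Semi G cb y₀ (cycSign h y) ∧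
      ∀ (g : G) (x : Y), Link G cb y₀ x → c (g • x) = c (g • y) * cycSign h y x := by
  have hk : ∀ (k : ℕ) (g : G), c (g • h ^ k • y) = c (g • y) := by
    intro k
    induction k with
    | zero => intro g; rw [pow_zero, one_smul]
    | succ k ih =>
      intro g
      rw [pow_succ, mul_smul, ← mul_smul g (h ^ k), hconst, mul_smul, ih]
  have hs1 : ∀ k : ℕ, cycSign h y (h ^ k • y) = 1 := fun k => if_pos ⟨k, rfl⟩
  have hs2 : ∀ k : ℕ, cycSign h y (cb (h ^ k • y)) = -1 := fun k =>
    if_neg fun ⟨l, hl⟩ => hdis k l hl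
  have hmul : ∀ (g : G) (x : Y), Link G cb y₀ x → c (g • x) = c (g • y) * cycSign h y x := by
    intro g x hx
    obtain ⟨k, hx' | hx'⟩ := (hall x).1 (link_trans (link_symm hy) hx)
    · rw [hx', hs1, hk, mul_one]
    · rw [hx', hs2, hG, hc, hk]
      ring
  have hsq : ∀ x, Link G cb y₀ x → cycSign h y x = 1 ∨ cycSign h y x = -1 := by
    intro x hx
    obtain ⟨k, hx' | hx'⟩ := (hall x).1 (link_trans (link_symm hy) hx)
    · rw [hx']; exact Or.inl (hs1 k)
    · rw [hx']; exact Or.inr (hs2 k)
  refine ⟨⟨hsq, fun x hx => ?_, fun g x z hx hz hgx => ?_⟩, hmul⟩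
  · obtain ⟨k, hx' | hx'⟩ := (hall x).1 (link_trans (link_symm hy) hx)
    · rw [hx', hs1, hs2]
    · rw [hx', hs2, hcb, hs1, neg_neg]
  · have hgz : Link G cb y₀ (g • z) :=
      link_trans hgx (link_smul hG g (link_trans (link_symm hx) hz))
    have e1 := hmul g x hx
    have e2 := hmul g z hz
    have e3 := hmul 1 (g • x) hgx
    have e4 := hmul 1 (g • z) hgz
    rw [one_smul, one_smul] at e3 e4
    rw [e3] at e1
    rw [e4] at e2
    have hcy2 : c y * c y ≠ 0 := mul_ne_zero hcy hcy
    have hq : ∀ x, Link G cb y₀ x → cycSign h y x * cycSign h y x = 1 := by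
      intro x hx
      rcases hsq x hx with h | h <;> rw [h] <;> norm_num
    -- the squares of `c y` and `c (g • y)` agree
    have h5 : c y * c y = c (g • y) * c (g • y) := by
      have : (c y * cycSign h y (g • x)) * (c y * cycSign h y (g • x)) =
          (c (g • y) * cycSign h y x) * (c (g • y) * cycSign h y x) := by rw [e1]
      calc c y * c y = (c y * c y) * (cycSign h y (g • x) * cycSign h y (g • x)) := by
            rw [hq _ hgx, mul_one]
        _ = (c y * cycSign h y (g • x)) * (c y * cycSign h y (g • x)) := by ring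
        _ = (c (g • y) * c (g • y)) * (cycSign h y x * cycSign h y x) := by rw [this]; ring
        _ = _ := by rw [hq _ hx, mul_one]
    have h6 : (c y * c y) * (cycSign h y (g • x) * cycSign h y (g • z)) =
        (c y * c y) * (cycSign h y x * cycSign h y z) := by
      calc (c y * c y) * (cycSign h y (g • x) * cycSign h y (g • z)) =
          (c y * cycSign h y (g • x)) * (c y * cycSign h y (g • z)) := by ring
        _ = (c (g • y) * cycSign h y x) * (c (g • y) * cycSign h y z) := by rw [e1, e2]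
        _ = (c (g • y) * c (g • y)) * (cycSign h y x * cycSign h y z) := by ring
        _ = _ := by rw [h5]
    exact mul_left_cancel₀ hcy2 h6

open Classical in
include hcb hne hG in
/-- A prime number of pairs. -/
theorem zero_of_prime {y₀ : Y} (htr : ∀ z, Link G cb y₀ z → ∃ g : G, g • y₀ = z) {b : ℕ}
    (hb : b.Prime) (hcard : Nat.card (Cls G cb y₀) = 2 * b) {W : Y → ℤ}
    (hW : ∀ y, W (cb y) = -W y) {c : Y → ℤ} (hc : ∀ y, c (cb y) = -c y)
    (hcl : ∀ g g' : G, ∑ z ∈ Finset.univ.filter (fun z => Link G cb y₀ z),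
      c (g • z) * W (g' • z) = 0)
    (hreg : RegClass G cb W y₀) : c y₀ = 0 := by
  obtain ⟨h, y, hy, hmove, hper, hdis, hall⟩ : ∃ (h : G) (y : Y), Link G cb y₀ y ∧ h • y ≠ y ∧
      h ^ b • y = y ∧ (∀ k l : ℕ, cb (h ^ k • y) ≠ h ^ l • y) ∧
      ∀ z, Link G cb y z ↔ ∃ k : ℕ, z = h ^ k • y ∨ z = cb (h ^ k • y) := by
    by_cases hb2 : b = 2
    · subst hb2
      exact exists_cycle_two hcb hne hG y₀ htr hcard
    · exact exists_cycle_odd hcb hne hG y₀ htr hb hb2 hcard
  have : Fact b.Prime := ⟨hb⟩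
  obtain ⟨⟨g₁, z₁, hz₁, hg₁⟩, hsemi⟩ := hreg
  -- the multiplicity formula for the cycle
  have hzero : ∀ {c : Y → ℤ}, (∀ y, c (cb y) = -c y) → (∀ g : G, c (g • h • y) = c (g • y)) →
      c y = 0 → ∀ x, Link G cb y₀ x → c x = 0 := by
    intro c hc hconst hcy x hx
    have hk : ∀ (k : ℕ) (g : G), c (g • h ^ k • y) = c (g • y) := by
      intro k
      induction k with
      | zero => intro g; rw [pow_zero, one_smul]
      | succ k ih =>
        intro g
        rw [pow_succ, mul_smul, ← mul_smul g (h ^ k), hconst, mul_smul, ih]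
    have hk1 : ∀ k : ℕ, c (h ^ k • y) = c y := by
      intro k
      have := hk k 1
      rwa [one_smul, one_smul] at this
    obtain ⟨k, hx' | hx'⟩ := (hall x).1 (link_trans (link_symm hy) hx)
    · rw [hx', hk1, hcy]
    · rw [hx', hc, hk1, hcy, neg_zero]
  by_cases hWc : ∀ g' : G, W (g' • h • y) = W (g' • y)
  · -- `W` is constant on the cycle
    exfalso
    have hg₁y : W (g₁ • y) ≠ 0 := by
      intro h0
      refine hg₁ (hzero (c := fun z => W (g₁ • z)) (fun z => ?_) (fun g => ?_) h0 z₁ hz₁)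
      · change W (g₁ • cb z) = -W (g₁ • z)
        rw [hG, hW]
      · change W (g₁ • g • h • y) = W (g₁ • g • y)
        rw [← mul_smul g₁, ← mul_smul g₁, hWc]
    obtain ⟨hs, hm⟩ := semi_of_cycle hcb hne hG hy hdis hall (c := fun z => W (g₁ • z))
      (fun z => by
        change W (g₁ • cb z) = -W (g₁ • z)
        rw [hG, hW])
      (fun g => by
        change W (g₁ • g • h • y) = W (g₁ • g • y)
        rw [← mul_smul g₁, ← mul_smul g₁, hWc]) hg₁y
    obtain ⟨_, h2⟩ := hsemi _ hs
    rcases h2 with h2 | ⟨g, x, z, hx, hz, hxz⟩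
    · rw [h2] at hcard
      have := hb.two_le
      omega
    · apply hxz
      have hq : ∀ x, Link G cb y₀ x → cycSign h y x * cycSign h y x = 1 := by
        intro x hx
        rcases hs.1 x hx with h | h <;> rw [h] <;> norm_num
      have e : ∀ x, Link G cb y₀ x → W (g • x) * cycSign h y x = W (g • y) := by
        intro x hx
        have h5 := hm (g₁⁻¹ * g) x hx
        change W (g₁ • (g₁⁻¹ * g) • x) = W (g₁ • (g₁⁻¹ * g) • y) * _ at h5
        rw [← mul_smul, ← mul_smul, mul_inv_cancel_left] at h5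
        rw [h5, mul_assoc, hq x hx, mul_one]
      rw [e x hx, e z hz]
  · push Not at hWc
    have hconst : ∀ g : G, c (g • h • y) = c (g • y) := by
      intro g
      refine cycle_const hcb hG (r := b) hW hc hmove hper hdis hall hWc g fun g' => ?_
      rw [← hcl g g']
      refine Finset.sum_congr ?_ fun _ _ => rfl
      ext z
      simp only [Finset.mem_filter, Finset.mem_univ, true_and, link_iff_of_link hy]
    by_cases hcy : c y = 0
    · exact hzero hc hconst hcy y₀ (link_refl _)
    · exfalso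
      obtain ⟨hs, hm⟩ := semi_of_cycle hcb hne hG hy hdis hall hc hconst hcy
      obtain ⟨⟨g', hg'⟩, _⟩ := hsemi _ hs
      apply hg'
      have h3 := hcl 1 g'
      have h4 : ∑ z ∈ Finset.univ.filter (fun z => Link G cb y₀ z),
          c ((1 : G) • z) * W (g' • z) =
          c y * ∑ z ∈ Finset.univ.filter (fun z => Link G cb y₀ z),
            cycSign h y z * W (g' • z) := by
        rw [Finset.mul_sum]
        refine Finset.sum_congr rfl fun z hz => ?_
        have h5 := hm 1 z (Finset.mem_filter.1 hz).2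
        rw [one_smul] at h5 ⊢
        rw [one_smul] at h5
        rw [h5]
        ring
      rw [h4] at h3
      exact (mul_eq_zero.1 h3).resolve_left hcy

open Classical in
include hcb hne hG in
/-- A doubly transitive class. -/
theorem zero_of_pair {y₀ : Y} (htr : ∀ z, Link G cb y₀ z → ∃ g : G, g • y₀ = z) {b : ℕ}
    (hb3 : 3 ≤ b) (hcard : Nat.card (Cls G cb y₀) = 2 * b)
    (hb : Odd b ∨ (b - 1).Prime ∨ ClassTriple G cb y₀) (hpair : ClassPair G cb y₀)
    {W : Y → ℤ} (hW : ∀ y, W (cb y) = -W y) {c : Y → ℤ} (hc : ∀ y, c (cb y) = -c y)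
    (hcl : ∀ g g' : G, ∑ z ∈ Finset.univ.filter (fun z => Link G cb y₀ z),
      c (g • z) * W (g' • z) = 0)
    (hreg : RegClass G cb W y₀) : c y₀ = 0 := by
  -- three different pairs
  let B : Finset Y := Finset.univ.filter (fun z => Link G cb y₀ z)
  have hB : ∀ z, z ∈ B ↔ Link G cb y₀ z := fun z => by simp [B]
  have hBc : B.card = 2 * b := by
    rw [← Fintype.card_subtype, ← Nat.card_eq_fintype_card]
    exact hcard
  obtain ⟨y₁, hy₁B, hy₁⟩ : ∃ y₁ ∈ B, y₁ ∉ ({y₀, cb y₀} : Finset Y) := by
    by_contra hcon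
    push Not at hcon
    have h1 : B.card ≤ ({y₀, cb y₀} : Finset Y).card := Finset.card_le_card hcon
    have h2 : ({y₀, cb y₀} : Finset Y).card ≤ 2 := Finset.card_le_two
    omega
  obtain ⟨y₂, hy₂B, hy₂⟩ : ∃ y₂ ∈ B, y₂ ∉ ({y₀, cb y₀, y₁, cb y₁} : Finset Y) := by
    by_contra hcon
    push Not at hcon
    have h1 : B.card ≤ ({y₀, cb y₀, y₁, cb y₁} : Finset Y).card := Finset.card_le_card hcon
    have h2 : ({y₀, cb y₀, y₁, cb y₁} : Finset Y).card ≤ 4 := Finset.card_le_four
    omega
  rw [hB] at hy₁B hy₂B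
  simp only [Finset.mem_insert, Finset.mem_singleton, not_or] at hy₁ hy₂
  obtain ⟨n1, n2⟩ := hy₁
  obtain ⟨n3, n4, n5, n6⟩ := hy₂
  have h3 : ∃ a b d : Y, Link G cb y₀ a ∧ Link G cb y₀ b ∧ Link G cb y₀ d ∧ b ≠ a ∧ b ≠ cb a ∧
      d ≠ a ∧ d ≠ cb a ∧ d ≠ b ∧ d ≠ cb b :=
    ⟨y₀, y₁, y₂, link_refl _, hy₁B, hy₂B, n1, n2, n3, n4, n5, n6⟩
  obtain ⟨⟨g₁, z₁, hz₁, hg₁⟩, hsemi⟩ := hreg
  have h1 := hcl 1
  -- the choice of a translate
  have hthird : ∀ (v : Y → ℤ) (l : ℤ), Semi G cb y₀ v →
      (∀ x, Link G cb y₀ x → c ((1 : G) • x) = l * v x) → c y₀ = 0 := by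
    intro v l hv hl
    obtain ⟨⟨g', hg'⟩, _⟩ := hsemi v hv
    have h5 := h1 g'
    have h6 : ∑ z ∈ Finset.univ.filter (fun z => Link G cb y₀ z), c ((1 : G) • z) * W (g' • z) =
        l * ∑ z ∈ Finset.univ.filter (fun z => Link G cb y₀ z), v z * W (g' • z) := by
      rw [Finset.mul_sum]
      refine Finset.sum_congr rfl fun z hz => ?_
      rw [hl z (Finset.mem_filter.1 hz).2]
      ring
    rw [h6] at h5
    have h7 := (mul_eq_zero.1 h5).resolve_right hg'
    have h8 := hl y₀ (link_refl _)
    rwa [h7, zero_mul, one_smul] at h8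
  by_cases hv0 : ∃ v, Semi G cb y₀ v
  · obtain ⟨v₀, hv₀⟩ := hv0
    obtain ⟨_, h2⟩ := hsemi v₀ hv₀
    rcases h2 with h2 | ⟨g', x, z, hx, hz, hxz⟩
    · rw [h2] at hcard
      omega
    · have hne0 : ∃ z, Link G cb y₀ z ∧ W (g' • z) ≠ 0 := by
        by_contra hcon
        push Not at hcon
        apply hxz
        rw [hcon x hx, hcon z hz, zero_mul, zero_mul]
      rcases pair_alternatives hcb hne hG htr (by omega) hcard hb hpair hW hc 1 g' (h1) hne0 with
        h4 | ⟨v, hv, h4⟩ | ⟨v, l, hv, h4⟩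
      · have := h4 y₀ (link_refl _)
        rwa [one_smul] at this
      · exfalso
        apply hxz
        have h5 := h4 x z hx hz
        by_cases hvx : v x = v z
        · have h6 := semi_unique hcb hne hG hpair hv hv₀ h3 hx hz hvx
          rw [hvx] at h5
          have h7 : v z ≠ 0 := by
            rcases hv.1 z hz with h | h <;> rw [h] <;> norm_num
          rw [mul_right_cancel₀ h7 h5, h6]
        · have h6 : v x = - v z := by
            rcases hv.1 x hx with h | h <;> rcases hv.1 z hz with h' | h' <;> rw [h, h'] at hvx ⊢ <;>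
              simp at hvx ⊢
          have hcz : Link G cb y₀ (cb z) := link_trans hz (link_cb hcb hne hG _)
          have h7 : v x = v (cb z) := by rw [h6, hv.2.1 z hz]
          have h8 := semi_unique hcb hne hG hpair hv hv₀ h3 hx hcz h7
          rw [hv₀.2.1 z hz] at h8
          rw [h6] at h5
          have h9 : v z ≠ 0 := by
            rcases hv.1 z hz with h | h <;> rw [h] <;> norm_num
          have h10 : - W (g' • x) = W (g' • z) := by
            apply mul_right_cancel₀ h9
            linarith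
          rw [h8, ← h10]
          ring
      · exact hthird v l hv h4
  · rcases pair_alternatives hcb hne hG htr (by omega) hcard hb hpair hW hc 1 g₁ (h1)
      ⟨z₁, hz₁, hg₁⟩ with h4 | ⟨v, hv, h4⟩ | ⟨v, l, hv, h4⟩
    · have := h4 y₀ (link_refl _)
      rwa [one_smul] at this
    · exact absurd ⟨v, hv⟩ hv0
    · exact absurd ⟨v, hv⟩ hv0

include hcb hne hG in
/-- **No relations.** -/
theorem rel_zero {y₀ : Y} (hgood : GoodClass G cb y₀) {W : Y → ℤ}
    (hW : ∀ y, W (cb y) = -W y) (hreg : RegClass G cb W y₀)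
    {c : Y → ℤ} (hc : ∀ y, c (cb y) = -c y) (hrel : ∀ g : G, ∑ y, c y * W (g • y) = 0) :
    c y₀ = 0 := by
  classical
  have := Fintype.ofFinite G
  obtain ⟨htr, b, hcard, hb⟩ := hgood
  have hcl : ∀ g g' : G, ∑ z ∈ Finset.univ.filter (fun z => Link G cb y₀ z),
      c (g • z) * W (g' • z) = 0 := by
    intro g g'
    refine core_split hG hW (c := fun z => c (g • z)) (fun τ => ?_) y₀ g'
    rw [← hrel (τ * g⁻¹)]
    refine Fintype.sum_equiv (MulAction.toPerm g) _ _ fun y => ?_
    rw [MulAction.toPerm_apply, ← mul_smul, inv_mul_cancel_right]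
  have hone : Nat.card (Cls G cb y₀) = 2 * 1 → c y₀ = 0 := fun h =>
    zero_of_one hcb hne hG h hW hc (fun g' => by
      have := hcl 1 g'
      simpa only [one_smul] using this) hreg.1
  rcases hb with hb | hb | ⟨hpair, hb⟩
  · subst hb
    exact hone hcard
  · exact zero_of_prime hcb hne hG htr hb hcard hW hc hcl hreg
  · by_cases hb3 : 3 ≤ b
    · exact zero_of_pair hcb hne hG htr hb3 hcard hb hpair hW hc hcl hreg
    · have hb12 : b = 0 ∨ b = 1 ∨ b = 2 := by omega
      rcases hb12 with rfl | rfl | rfl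
      · exfalso
        rw [mul_zero, Nat.card_eq_fintype_card, Fintype.card_eq_zero_iff] at hcard
        exact hcard.elim ⟨y₀, link_refl _⟩
      · exact hone hcard
      · exact zero_of_prime hcb hne hG htr Nat.prime_two hcard hW hc hcl hreg

end

end Pool.Agent.V7H82.TT
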