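import Mathlib
import Pool.Agent.TH127.SC.Good

/-!
# Orbits without blocks
-/

set_option linter.unusedSectionVars false
set_option linter.unusedVariables false

namespace Pool.Agent.V7H82.TT

open Pool.Agent.TH127.SC MulAction

section defs

variable (G : Type*) {Y : Type*} [Group G] [MulAction G Y]

/-- Any two pairs of the orbit of `y₀` can be moved to any two pairs. -/
def OrbPair (cb : Y → Y) (y₀ : Y) : Prop :=
  ∀ x y x' y' : Y, x ∈ orbit G y₀ → y ∈ orbit G y₀ → x' ∈ orbit G y₀ → y' ∈ orbit G y₀ →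
    y ≠ x → y ≠ cb x → y' ≠ x' → y' ≠ cb x' → ∃ g : G,
      ((g • x = x' ∨ g • x = cb x') ∧ (g • y = y' ∨ g • y = cb y')) ∨
      ((g • x = y' ∨ g • x = cb y') ∧ (g • y = x' ∨ g • y = cb x'))

/-- Any three pairs of the orbit of `y₀` can be moved to any three pairs. -/
def OrbTriple (cb : Y → Y) (y₀ : Y) : Prop :=
  ∀ x y : Fin 3 → Y, (∀ i, x i ∈ orbit G y₀) → (∀ i, y i ∈ orbit G y₀) →
    (∀ i k, i ≠ k → x i ≠ x k ∧ x i ≠ cb (x k)) → (∀ i k, i ≠ k → y i ≠ y k ∧ y i ≠ cb (y k)) →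
      ∃ (g : G) (π : Equiv.Perm (Fin 3)), ∀ i, g • x i = y (π i) ∨ g • x i = cb (y (π i))

/-- The orbit of `y₀` has no blocks of pairs. -/
def OrbPrim (cb : Y → Y) (y₀ : Y) : Prop :=
  ∀ B : Set Y, B ⊆ orbit G y₀ → y₀ ∈ B → (∀ x ∈ B, cb x ∈ B) →
    (∀ g : G, (∃ x ∈ B, g • x ∈ B) → ∀ x ∈ B, g • x ∈ B) →
      (∀ x ∈ B, x = y₀ ∨ x = cb y₀) ∨ B = orbit G y₀

/-- Some element preserves all pairs of the orbit, fixes an element and moves an element. -/
def OrbMix (cb : Y → Y) (y₀ : Y) : Prop :=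
  ∃ k : G, (∀ x ∈ orbit G y₀, k • x = x ∨ k • x = cb x) ∧
    (∃ x ∈ orbit G y₀, k • x = x) ∧ ∃ x ∈ orbit G y₀, k • x ≠ x

/-- The orbit of `y₀` is good. -/
def GoodOrbit (cb : Y → Y) (y₀ : Y) : Prop :=
  ∃ n : ℕ, (orbit G y₀).ncard = 2 * n ∧ (n = 1 ∨ n.Prime ∨
    (OrbPair G cb y₀ ∧ (Odd n ∨ (n - 1).Prime ∨ OrbTriple G cb y₀)) ∨
    (OrbPrim G cb y₀ ∧ OrbMix G cb y₀))

end defs

variable {G Y : Type*} [Group G] [MulAction G Y] {cb : Y → Y} {y₀ : Y}

/-- The stabilizer of a block. -/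
def blockStab {B : Set Y} (hy : y₀ ∈ B)
    (hblock : ∀ g : G, (∃ x ∈ B, g • x ∈ B) → ∀ x ∈ B, g • x ∈ B) : Subgroup G where
  carrier := {g | g • y₀ ∈ B}
  one_mem' := by
    change (1 : G) • y₀ ∈ B
    rwa [one_smul]
  mul_mem' := by
    intro a b ha hb
    change (a * b) • y₀ ∈ B
    rw [mul_smul]
    exact hblock a ⟨y₀, hy, ha⟩ _ hb
  inv_mem' := by
    intro a ha
    exact hblock a⁻¹ ⟨a • y₀, ha, by rwa [inv_smul_smul]⟩ _ hy

/-- The number of elements of a block divides the number of elements of the orbit. -/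
theorem block_dvd {B : Set Y} (hB : B ⊆ orbit G y₀) (hy : y₀ ∈ B)
    (hblock : ∀ g : G, (∃ x ∈ B, g • x ∈ B) → ∀ x ∈ B, g • x ∈ B) :
    B.ncard ∣ (orbit G y₀).ncard := by
  have h1 : orbit (blockStab hy hblock) y₀ = B := by
    ext z
    constructor
    · rintro ⟨g, rfl⟩
      exact g.2
    · intro hz
      obtain ⟨g, hg⟩ := hB hz
      refine ⟨⟨g, ?_⟩, hg⟩
      change g • y₀ ∈ B
      have hg' : g • y₀ = z := hg
      rw [hg']
      exact hz
  have h2 := index_stabilizer (blockStab hy hblock) y₀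
  have h3 := index_stabilizer G y₀
  have h4 : stabilizer (blockStab hy hblock) y₀ =
      (stabilizer G y₀).subgroupOf (blockStab hy hblock) := by
    ext g
    rfl
  have h5 : stabilizer G y₀ ≤ blockStab hy hblock := by
    intro g hg
    change g • y₀ ∈ B
    rw [mem_stabilizer_iff.1 hg]
    exact hy
  have h6 := Subgroup.relIndex_mul_index h5
  rw [h4] at h2
  change (stabilizer G y₀).relIndex (blockStab hy hblock) = _ at h2
  rw [h2, h3, h1] at h6
  rw [← h6]
  exact Dvd.intro _ rfl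

/-- A set with a fixed point free involution. -/
theorem even_ncard {B : Set Y} (hfin : B.Finite) (h1 : ∀ x ∈ B, cb x ∈ B)
    (h2 : ∀ x ∈ B, cb (cb x) = x) (h3 : ∀ x ∈ B, cb x ≠ x) : Even B.ncard := by
  classical
  have h4 : ∑ z ∈ hfin.toFinset, (1 : ZMod 2) = 0 := by
    refine Finset.sum_involution (fun z _ => cb z) ?_ ?_ ?_ ?_
    · intro a _
      decide
    · intro a ha _
      exact h3 a (hfin.mem_toFinset.1 ha)
    · intro a ha
      exact hfin.mem_toFinset.2 (h1 a (hfin.mem_toFinset.1 ha))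
    · intro a ha
      exact h2 a (hfin.mem_toFinset.1 ha)
  rw [Finset.sum_const, nsmul_eq_mul, mul_one] at h4
  rw [Set.ncard_eq_toFinset_card _ hfin]
  exact (ZMod.natCast_eq_zero_iff_even).1 h4

/-- A prime number of pairs. -/
theorem prim_of_card (hcb : ∀ x ∈ orbit G y₀, cb (cb x) = x) (hne : ∀ x ∈ orbit G y₀, cb x ≠ x)
    {n : ℕ} (hn : (orbit G y₀).ncard = 2 * n) (h : n = 1 ∨ n.Prime) : OrbPrim G cb y₀ := by
  classical
  intro B hB hy hBc hblock
  have hn0 : 0 < n := by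
    rcases h with rfl | h
    · exact one_pos
    · exact h.pos
  have hfin : (orbit G y₀).Finite := Set.finite_of_ncard_pos (by omega)
  have hBf : B.Finite := hfin.subset hB
  obtain ⟨b, hb⟩ := even_ncard (cb := cb) hBf hBc (fun x hx => hcb x (hB hx))
    (fun x hx => hne x (hB hx))
  have h1 := block_dvd hB hy hblock
  have hb2 : B.ncard = 2 * b := by omega
  rw [hn, hb2] at h1
  have h2 : b ∣ n := Nat.dvd_of_mul_dvd_mul_left (by norm_num) h1
  have h3 : b = 1 ∨ b = n := by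
    rcases h with rfl | h
    · exact Or.inl (Nat.dvd_one.1 h2)
    · exact (Nat.dvd_prime h).1 h2
  rcases h3 with h3 | h3
  · left
    intro z hz
    by_contra hcon
    push Not at hcon
    have h4 : ({y₀, cb y₀, z} : Set Y) ⊆ B := by
      intro w hw
      rcases hw with rfl | rfl | rfl
      · exact hy
      · exact hBc _ hy
      · exact hz
    have h5 := Set.ncard_le_ncard h4 hBf
    have h6 : ({y₀, cb y₀, z} : Set Y).ncard = 3 :=
      Set.ncard_eq_three.2 ⟨y₀, cb y₀, z, (hne y₀ (mem_orbit_self _)).symm, Ne.symm hcon.1,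
        Ne.symm hcon.2, rfl⟩
    omega
  · right
    exact Set.eq_of_subset_of_ncard_le hB (by rw [hn, hb2, h3]) hfin

/-- Doubly transitive orbits. -/
theorem prim_of_pair (hcb : ∀ x ∈ orbit G y₀, cb (cb x) = x) (h : OrbPair G cb y₀) :
    OrbPrim G cb y₀ := by
  intro B hB hy hBc hblock
  by_contra hcon
  push Not at hcon
  obtain ⟨⟨z, hz, h1, h2⟩, h3⟩ := hcon
  apply h3
  refine Set.Subset.antisymm hB fun w hw => ?_
  by_cases h4 : w = y₀
  · rw [h4]; exact hy
  · by_cases h5 : w = cb y₀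
    · rw [h5]; exact hBc _ hy
    · have hcc : ∀ v : Y, v = w ∨ v = cb w → v ∈ B → w ∈ B := by
        rintro v (rfl | rfl) hv
        · exact hv
        · rw [← hcb w hw]
          exact hBc _ hv
      have hyy : ∀ v : Y, v = y₀ ∨ v = cb y₀ → v ∈ B := by
        rintro v (rfl | rfl)
        · exact hy
        · exact hBc _ hy
      obtain ⟨g, hg | hg⟩ := h y₀ z y₀ w (mem_orbit_self _) (hB hz) (mem_orbit_self _) hw h1 h2
        h4 h5
      · exact hcc _ hg.2 (hblock g ⟨y₀, hy, hyy _ hg.1⟩ _ hz)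
      · exact hcc _ hg.1 (hblock g ⟨z, hz, hyy _ hg.2⟩ _ hy)

/-- Good orbits have no blocks. -/
theorem prim_of_good (hcb : ∀ x ∈ orbit G y₀, cb (cb x) = x) (hne : ∀ x ∈ orbit G y₀, cb x ≠ x)
    (h : GoodOrbit G cb y₀) : OrbPrim G cb y₀ := by
  obtain ⟨n, hn, h | h | h | h⟩ := h
  · exact prim_of_card hcb hne hn (Or.inl h)
  · exact prim_of_card hcb hne hn (Or.inr h)
  · exact prim_of_pair hcb h.1
  · exact h.1

/-- An element which preserves the pairs flips two pairs. -/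
theorem flip_of_mix (horb : ∀ x ∈ orbit G y₀, cb x ∈ orbit G y₀)
    (hcb : ∀ x ∈ orbit G y₀, cb (cb x) = x) (hne : ∀ x ∈ orbit G y₀, cb x ≠ x)
    (hG : ∀ (g : G), ∀ y ∈ orbit G y₀, g • cb y = cb (g • y)) (hp : OrbPrim G cb y₀)
    (hm : OrbMix G cb y₀) {x y : Y} (hx : x ∈ orbit G y₀) (hy : y ∈ orbit G y₀) (h1 : y ≠ x)
    (h2 : y ≠ cb x) : ∃ g : G, (g • x = x ∧ g • y = cb y) ∨ (g • x = cb x ∧ g • y = y) := by
  have hsm : ∀ (g : G), ∀ x ∈ orbit G y₀, g • x ∈ orbit G y₀ := by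
    rintro g _ ⟨h, rfl⟩
    exact ⟨g * h, mul_smul g h y₀⟩
  let K : Set G := {k | ∀ x ∈ orbit G y₀, k • x = x ∨ k • x = cb x}
  have hK : ∀ (g k : G), k ∈ K → g⁻¹ * k * g ∈ K := by
    intro g k hk x hx
    rw [mul_smul, mul_smul]
    rcases hk _ (hsm g x hx) with h | h
    · left
      rw [h, inv_smul_smul]
    · right
      rw [h, ← hG g x hx, inv_smul_smul]
  let r : Y → Y → Prop := fun x y => ∀ k ∈ K, k • x = x ↔ k • y = y
  have hr : ∀ (g : G) (x y : Y), r x y → r (g • x) (g • y) := by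
    intro g x y h k hk
    have h1 := h _ (hK g k hk)
    have h2 : ∀ z : Y, (g⁻¹ * k * g) • z = z ↔ k • g • z = g • z := by
      intro z
      rw [mul_smul, mul_smul]
      constructor
      · intro h
        have := congrArg (fun t => g • t) h
        simpa only [smul_inv_smul] using this
      · intro h
        rw [h, inv_smul_smul]
    rw [h2, h2] at h1
    exact h1
  have hrc : ∀ x ∈ orbit G y₀, r x (cb x) := by
    intro x hx k hk
    rw [hG k x hx]
    constructor
    · intro h; rw [h]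
    · intro h
      rcases hk x hx with h' | h'
      · exact h'
      · exfalso
        rw [h', hcb x hx] at h
        exact hne x hx h.symm
  obtain ⟨k₀, hk₀, ⟨a, ha, hka⟩, b, hb, hkb⟩ := hm
  have key := hp {y | y ∈ orbit G y₀ ∧ r y₀ y} (fun y hy => hy.1)
    ⟨mem_orbit_self _, fun k _ => Iff.rfl⟩
    (fun x hx => ⟨horb x hx.1, fun k hk => (hx.2 k hk).trans (hrc x hx.1 k hk)⟩)
    (by
      rintro g ⟨x, hx, hgx⟩ y hy
      refine ⟨hsm g y hy.1, fun k hk => ?_⟩
      have e1 : r y₀ (g • x) := hgx.2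
      have e2 : r x y := fun k hk => (hx.2 k hk).symm.trans (hy.2 k hk)
      exact (e1 k hk).trans (hr g x y e2 k hk))
  rcases key with key | key
  · -- trivial blocks
    by_contra hcon
    push Not at hcon
    have hxy : r x y := by
      intro k hk
      obtain ⟨c1, c2⟩ := hcon k
      constructor
      · intro h
        rcases hk y hy with h' | h'
        · exact h'
        · exact absurd h' (c1 h)
      · intro h
        rcases hk x hx with h' | h'
        · exact h'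
        · exact absurd h (c2 h')
    obtain ⟨g, rfl⟩ := hx
    have h3 : r y₀ (g⁻¹ • y) := by
      have := hr g⁻¹ _ _ hxy
      change r (g⁻¹ • g • y₀) _ at this
      rwa [inv_smul_smul] at this
    rcases key (g⁻¹ • y) ⟨hsm _ _ hy, h3⟩ with h4 | h4
    · apply h1
      change y = g • y₀
      rw [← h4, smul_inv_smul]
    · apply h2
      change y = cb (g • y₀)
      rw [← hG g y₀ (mem_orbit_self _), ← h4, smul_inv_smul]
  · exfalso
    have ha' : a ∈ {y | y ∈ orbit G y₀ ∧ r y₀ y} := by rw [key]; exact ha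
    have hb' : b ∈ {y | y ∈ orbit G y₀ ∧ r y₀ y} := by rw [key]; exact hb
    exact hkb ((hb'.2 k₀ hk₀).1 ((ha'.2 k₀ hk₀).2 hka))

end Pool.Agent.V7H82.TT
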