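import Mathlib
import Pool.Agent.V7H82.TT.Abs
import Pool.Agent.V7H82.TT.Prim

/-!
# Linear relations between the translates of an odd function, and good orbits
-/

set_option linter.unusedSectionVars false
set_option linter.unusedVariables false

namespace Pool.Agent.V7H82.TT

open Pool.Agent.TH127.SC MulAction

section defs

variable (G : Type*) {Y : Type*} [Group G] [MulAction G Y]

/-- `v` is a sign function on the orbit of `y₀`, invariant up to signs. -/
def OrbSign (cb : Y → Y) (y₀ : Y) (v : Y → ℤ) : Prop :=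
  (∀ x ∈ orbit G y₀, v x = 1 ∨ v x = -1) ∧ (∀ x ∈ orbit G y₀, v (cb x) = -v x) ∧
    ∀ (g : G), ∀ x ∈ orbit G y₀, ∀ y ∈ orbit G y₀, v (g • x) * v (g • y) = v x * v y

/-- The function `W` is regular on the orbit of `y₀`. -/
def RegOrbit (cb : Y → Y) (W : Y → ℤ) (y₀ : Y) : Prop :=
  (∃ z ∈ orbit G y₀, W z ≠ 0) ∧ ∀ v : Y → ℤ, OrbSign G cb y₀ v →
    (∑ᶠ z ∈ orbit G y₀, v z * W z) ≠ 0 ∧
    ((orbit G y₀).ncard = 2 ∨ ∃ x ∈ orbit G y₀, ∃ y ∈ orbit G y₀, W x * v x ≠ W y * v y)

end defs

variable {G Y : Type*} [Group G] [MulAction G Y] {cb : Y → Y} [Fintype Y] [Finite G]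
  (hcb : ∀ y, cb (cb y) = y) (hne : ∀ y, cb y ≠ y)
  (hG : ∀ (g : G) (y : Y), g • cb y = cb (g • y))

include hcb hne hG in
/-- A class with more than one pair contains two points of different pairs which are not flipped. -/
theorem exists_not_flip {a b : Y} (h : Link G cb a b) (h1 : b ≠ a) (h2 : b ≠ cb a) :
    ∃ x y, Link G cb a x ∧ ¬ Flip G cb x y ∧ y ≠ x ∧ y ≠ cb x := by
  unfold Link at h
  induction h with
  | rel a b hab => exact ⟨a, b, link_refl _, hab, h1, h2⟩
  | refl a => exact absurd rfl h1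
  | symm a b hab ih =>
    obtain ⟨x, y, h3, h4⟩ := ih (Ne.symm h1) (fun h => h2 (by rw [h, hcb]))
    exact ⟨x, y, link_trans (link_symm hab) h3, h4⟩
  | trans a b c hab hbc ih1 ih2 =>
    by_cases h3 : b = a
    · subst h3
      exact ih2 h1 h2
    · by_cases h4 : b = cb a
      · subst h4
        obtain ⟨x, y, h5, h6⟩ := ih2 h2 (by rw [hcb]; exact h1)
        exact ⟨x, y, link_trans (link_cb hcb hne hG a) h5, h6⟩
      · exact ih1 h3 h4

include hcb hne hG in
/-- **No relations.** -/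
theorem rel_zero_orb (hκ : ∀ y : Y, cb y ∈ orbit G y)
    (hind : ∀ y z : Y, z ∉ orbit G y → Flip G cb y z) {y₀ : Y} (hgood : GoodOrbit G cb y₀)
    {W : Y → ℤ} (hW : ∀ y, W (cb y) = -W y) (hreg : RegOrbit G cb W y₀)
    {c : Y → ℤ} (hc : ∀ y, c (cb y) = -c y) (hrel : ∀ g : G, ∑ y, c y * W (g • y) = 0) :
    c y₀ = 0 := by
  classical
  have horb' : ∀ a b, Link G cb a b → b ∈ orbit G a := by
    intro a b h
    unfold Link at h
    induction h with
    | rel a b hab =>
      by_contra hcon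
      exact hab (hind _ _ hcon)
    | refl a => exact mem_orbit_self _
    | symm a b _ ih => exact mem_orbit_symm.1 ih
    | trans a b c _ _ ih1 ih2 =>
      rw [← orbit_eq_iff] at ih1 ih2 ⊢
      rw [ih2, ih1]
  have horb := horb' y₀
  have htr : ∀ z, Link G cb y₀ z → ∃ g : G, g • y₀ = z := fun z hz => horb z hz
  have hsmul : ∀ (g : G) (x : Y), x ∈ orbit G y₀ → g • x ∈ orbit G y₀ := by
    rintro g _ ⟨h, rfl⟩
    exact ⟨g * h, mul_smul g h y₀⟩
  have hcborb : ∀ x, x ∈ orbit G y₀ → cb x ∈ orbit G y₀ := by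
    rintro _ ⟨h, rfl⟩
    change cb (h • y₀) ∈ orbit G y₀
    rw [← hG]
    exact hsmul h _ (hκ y₀)
  obtain ⟨⟨z₀, hz₀, hW₀⟩, hsign⟩ := hreg
  -- the class is a pair or the orbit
  have hprim : OrbPrim G cb y₀ := prim_of_good (fun x _ => hcb x) (fun x _ => hne x) hgood
  have halt : (∀ z, Link G cb y₀ z → z = y₀ ∨ z = cb y₀) ∨ ∀ z ∈ orbit G y₀, Link G cb y₀ z := by
    rcases hprim {z | Link G cb y₀ z} (fun z hz => horb z hz) (link_refl _)
      (fun x hx => link_trans hx (link_cb hcb hne hG x))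
      (by
        rintro g ⟨x, hx, hgx⟩ y hy
        exact link_trans hgx (link_smul hG g (link_trans (link_symm hx) hy))) with h | h
    · exact Or.inl h
    · right
      intro z hz
      rw [← h] at hz
      exact hz
  obtain ⟨n, hn, hgood⟩ := hgood
  have halt : (∀ z, Link G cb y₀ z → z = y₀ ∨ z = cb y₀) ∨
      ((∀ z ∈ orbit G y₀, Link G cb y₀ z) ∧ (n = 1 ∨ n.Prime ∨
        (OrbPair G cb y₀ ∧ (Odd n ∨ (n - 1).Prime ∨ OrbTriple G cb y₀)))) := by
    rcases hgood with h | h | h | ⟨h, h'⟩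
    · rcases halt with halt | halt
      · exact Or.inl halt
      · exact Or.inr ⟨halt, Or.inl h⟩
    · rcases halt with halt | halt
      · exact Or.inl halt
      · exact Or.inr ⟨halt, Or.inr (Or.inl h)⟩
    · rcases halt with halt | halt
      · exact Or.inl halt
      · exact Or.inr ⟨halt, Or.inr (Or.inr h)⟩
    · left
      intro z hz
      by_contra hcon
      push Not at hcon
      obtain ⟨x, y, hx, hxy, h1, h2⟩ := exists_not_flip hcb hne hG hz hcon.1 hcon.2
      have hy : Link G cb y₀ y := link_trans hx (Relation.EqvGen.rel _ _ hxy)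
      apply hxy
      obtain ⟨g, hg | hg⟩ := flip_of_mix (fun x hx => hcborb x hx) (fun x _ => hcb x)
        (fun x _ => hne x) (fun g y _ => hG g y) h h' (horb x hx) (horb y hy) h1 h2
      · exact ⟨g, Or.inl hg⟩
      · exact ⟨g, Or.inr (Or.inl hg)⟩
  rcases halt with halt | ⟨halt, hgood⟩
  · -- one pair
    have hB : (Finset.univ.filter (fun z => Link G cb y₀ z)) = {y₀, cb y₀} := by
      ext z
      simp only [Finset.mem_filter, Finset.mem_univ, true_and, Finset.mem_insert,
        Finset.mem_singleton]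
      refine ⟨halt z, ?_⟩
      rintro (rfl | rfl)
      · exact link_refl _
      · exact link_cb hcb hne hG _
    have hcard : Nat.card (Cls G cb y₀) = 2 * 1 := by
      rw [Nat.card_eq_fintype_card, Fintype.card_subtype, hB, Finset.card_pair (hne y₀).symm]
    obtain ⟨g₀, rfl⟩ := hz₀
    refine rel_zero hcb hne hG ⟨htr, 1, hcard, Or.inl rfl⟩ hW ⟨⟨g₀, y₀, link_refl _, hW₀⟩, ?_⟩ hc
      hrel
    intro v hv
    refine ⟨⟨g₀, ?_⟩, Or.inl hcard⟩
    rw [hB, Finset.sum_pair (hne y₀).symm, hG, hW, hv.2.1 y₀ (link_refl _)]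
    have h1 : v y₀ ≠ 0 := by
      rcases hv.1 y₀ (link_refl _) with h | h <;> rw [h] <;> norm_num
    have h2 : v y₀ * W (g₀ • y₀) + -v y₀ * -W (g₀ • y₀) = 2 * (v y₀ * W (g₀ • y₀)) := by ring
    rw [h2]
    exact mul_ne_zero two_ne_zero (mul_ne_zero h1 hW₀)
  · -- the orbit
    have hiff : ∀ z, Link G cb y₀ z ↔ z ∈ orbit G y₀ := fun z => ⟨horb z, halt z⟩
    have hset : {z | Link G cb y₀ z} = orbit G y₀ := Set.ext hiff
    have hcard : Nat.card (Cls G cb y₀) = (orbit G y₀).ncard := by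
      rw [← hset]
      rfl
    refine rel_zero hcb hne hG ⟨htr, n, by rw [hcard, hn], ?_⟩ hW ⟨⟨1, z₀, halt z₀ hz₀, by
      rwa [one_smul]⟩, ?_⟩ hc hrel
    · rcases hgood with h | h | ⟨h, h'⟩
      · exact Or.inl h
      · exact Or.inr (Or.inl h)
      · refine Or.inr (Or.inr ⟨?_, ?_⟩)
        · intro x y x' y' h1 h2 h3 h4
          exact h x y x' y' ((hiff _).1 h1) ((hiff _).1 h2) ((hiff _).1 h3) ((hiff _).1 h4)
        · rcases h' with h' | h' | h'
          · exact Or.inl h'
          · exact Or.inr (Or.inl h')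
          · refine Or.inr (Or.inr ?_)
            intro x y h1 h2
            exact h' x y (fun i => (hiff _).1 (h1 i)) (fun i => (hiff _).1 (h2 i))
    · intro v hv
      have hv' : OrbSign G cb y₀ v := by
        refine ⟨fun x hx => hv.1 x ((hiff _).2 hx), fun x hx => hv.2.1 x ((hiff _).2 hx),
          fun g x hx y hy => hv.2.2 g x y ((hiff _).2 hx) ((hiff _).2 hy)
            ((hiff _).2 (hsmul g x hx))⟩
      obtain ⟨h1, h2⟩ := hsign v hv'
      constructor
      · refine ⟨1, ?_⟩
        intro h3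
        apply h1
        rw [finsum_mem_eq_sum_of_inter_support_eq (t := Finset.univ.filter
          (fun z => Link G cb y₀ z)) (f := fun z => v z * W z)]
        · rw [← h3]
          exact Finset.sum_congr rfl fun z _ => by rw [one_smul]
        · congr 1
          ext z
          simp [hiff z]
      · rcases h2 with h2 | ⟨x, hx, y, hy, h2⟩
        · left
          rw [hcard, h2]
        · right
          exact ⟨1, x, y, (hiff _).2 hx, (hiff _).2 hy, by rwa [one_smul, one_smul]⟩

end Pool.Agent.V7H82.TT
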